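import Pool.Agent.Lib_helper68.SEL.Top

/-!
# A positive proportion of critical zeros for almost all twists of a Hecke eigenform

Let `f` be a normalised Hecke eigenform of level `1` and weight `k`.  Selberg's theorem for the
twists `f ⊗ χ`, in the conductor aspect, for every modulus and almost every individual primitive
character, in short intervals.  For every `T` there is `C` such that for every modulus `q ≥ 2`,
every interval `[a, b] ⊆ [-T, T]` and all `0 < H ≤ h ≤ b - a`: for all but at most
`C (b - a) φ(q) / (h H log q)` of the primitive Dirichlet characters `χ` mod `q`, the completed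
`L`-function `Λ(s, f ⊗ χ)` is entire and every interval `(x, x + h)` contained in `[a, b]` contains
more than `h / H` ordinates of zeros of odd order of `Λ(s, f ⊗ χ)` on the line `Re s = 1/2`, and
these are at least the proportion `h / (C H log q)` of all zeros of `Λ(s, f ⊗ χ)` with ordinate in
`(x, x + h)`, counted with multiplicity.  (Take `H = A / log q` with a large constant `A`.)

(For one interval, `b - a = h`, the exceptional set has at most `C φ(q) / (H log q)` elements, at
every scale `h ≥ H`, for example at the central point.)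

Authors of the blocks (team): helper5, helper8, helper21, helper25, helper28, helper31, helper45,
helper47, helper50, helper55, helper58, helper60, helper65, helper68, helper80, helper82, helper88;
the abstract endgame `Lib_helper24/ABS` is by helper24, the zero counting by helper92, and the
libraries `Lib_helper68/GL2` and `Lib_helper28/REAL` are those of the earlier theorem on these
twists (at least `K` critical zeros in every window for almost all twists).
-/

namespace Pool.Agent.Superseded68.GL2PositiveProportion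

open Complex
open scoped MatrixGroups ENNReal

/-- The Fourier coefficients `a(n)` of a cusp form of level `1`. -/
noncomputable def coeff {k : ℕ} (f : CuspForm 𝒮ℒ (k : ℤ)) (n : ℕ) : ℂ :=
  (UpperHalfPlane.qExpansion 1 f).coeff n

/-- `f` is a normalised Hecke eigenform of level `1` and weight `k`. -/
structure IsEigenform {k : ℕ} (f : CuspForm 𝒮ℒ (k : ℤ)) : Prop where
  one : coeff f 1 = 1
  mul : ∀ m n : ℕ, m.Coprime n → coeff f (m * n) = coeff f m * coeff f n
  hecke : ∀ p r : ℕ, p.Prime → coeff f (p ^ (r + 2)) =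
    coeff f p * coeff f (p ^ (r + 1)) - (p : ℂ) ^ (k - 1) * coeff f (p ^ r)

/-- `Λ` is the completed `L`-function `Λ(s, f ⊗ χ)`: it is entire, and for `Re s > 3/2` it equals
`Γ_ℝ(s + (k-1)/2) Γ_ℝ(s + (k+1)/2) ∑ₙ a(n) χ(n) n^{-(s + (k-1)/2)}`. -/
def IsLambda {k : ℕ} (f : CuspForm 𝒮ℒ (k : ℤ)) {q : ℕ} (χ : DirichletCharacter ℂ q)
    (Λ : ℂ → ℂ) : Prop :=
  Differentiable ℂ Λ ∧ ∀ s : ℂ, 3 / 2 < s.re →
    HasSum (fun n : ℕ => Gammaℝ (s + ((k : ℂ) - 1) / 2) * Gammaℝ (s + ((k : ℂ) + 1) / 2) *
      (coeff f n * χ n / (n : ℂ) ^ (s + ((k : ℂ) - 1) / 2))) (Λ s)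

/-- The number of `t` with `a < t < b` such that `1/2 + it` is a zero of odd order of `Λ`. -/
noncomputable def oddCritical (Λ : ℂ → ℂ) (a b : ℝ) : ℝ≥0∞ :=
  ({t : ℝ | a < t ∧ t < b ∧ Odd (analyticOrderNatAt Λ (1 / 2 + t * I))}.encard : ℝ≥0∞)

/-- The number of all zeros `ρ` of `Λ` with `a < Im ρ < b`, counted with multiplicity. -/
noncomputable def allZeros (Λ : ℂ → ℂ) (a b : ℝ) : ℝ≥0∞ :=
  ∑' ρ : {ρ : ℂ // a < ρ.im ∧ ρ.im < b}, (analyticOrderNatAt Λ ρ.1 : ℝ≥0∞)

theorem result {k : ℕ} (hk : 0 < k) (f : CuspForm 𝒮ℒ (k : ℤ)) (hf : IsEigenform f) (T : ℝ) :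
    ∃ C : ℝ, 0 < C ∧ ∀ (q : ℕ) [NeZero q], 2 ≤ q → ∀ a b h H : ℝ, -T ≤ a → b ≤ T →
      0 < H → H ≤ h → h ≤ b - a →
      (Nat.card {χ : DirichletCharacter ℂ q // χ.IsPrimitive ∧
        ¬ ∃ Λ : ℂ → ℂ, IsLambda f χ Λ ∧ ∀ x : ℝ, a ≤ x → x + h ≤ b →
          ENNReal.ofReal (h / H) < oddCritical Λ x (x + h) ∧
          ENNReal.ofReal (h / (C * H * Real.log q)) * allZeros Λ x (x + h) ≤
            oddCritical Λ x (x + h)} : ℝ) ≤
        C * (b - a) * q.totient / (h * H * Real.log q) :=
  Pool.Agent.SEL.top_selberg hk f hf.one hf.mul hf.hecke T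

end Pool.Agent.Superseded68.GL2PositiveProportion
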